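import Pool.Agent.H33.PTH.Vst
import Pool.Agent.H49.PTH.Hf2
import Pool.Agent.H7.SLF.Base
import Pool.Agent.H7.SLF.Reg
import Pool.Agent.H7.SLP.H5A
import Pool.Agent.H59.M5.Bxs

/-!
# The path of windows: rows of the heights for all windows and all labels

The proof of `H5W`.
-/

set_option autoImplicit false

namespace Pool.PTH

open MvPolynomial Finset Real
open Pool.Agent.H49.Ent Pool.Agent.H32.Dense Pool.STK Pool.KA Pool.KSAT Pool.K2S Pool.PB
open Pool.SLO Pool.SLP Pool.KAF
open Pool.SLF (Sl Dts Qa Gap GC own st)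

section aux

variable {m J : ℕ}

theorem pe_of_pr {F : Fam m J} {A B : F.Ω → Prop} (hA : 0 < Pe F.p A) (hBA : ∀ ω, B ω → A ω)
    {π₀ : ℝ} (h : π₀ ≤ Pr (Pool.Agent.H49.Ent.cond F.p A True) {ω | B ω}) :
    π₀ * Pe F.p A ≤ Pe F.p B := by
  have h1 : Pe (Pool.Agent.H49.Ent.cond F.p A True) (fun ω => ω ∈ {ω | B ω}) =
      Pe F.p (fun ω => A ω ∧ ω ∈ {ω | B ω}) / Pe F.p A := Pe_cond _
  have h2 : π₀ ≤ Pe (Pool.Agent.H49.Ent.cond F.p A True) (fun ω => ω ∈ {ω | B ω}) := h
  have h3 : (fun ω => A ω ∧ ω ∈ {ω | B ω}) = B := by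
    funext ω
    exact propext ⟨fun h => h.2, fun h => ⟨hBA ω h, h⟩⟩
  rw [h1, le_div_iff₀ hA, h3] at h2
  exact h2

theorem Hfw.mono {F : Fam m J} {i₁ : Fin m} {A : F.Ω → Prop} {a w q K e X : ℕ}
    {G : F.Ω → MvPolynomial (Fin m) ℝ}
    {H : ((Fin m → ℝ) × (Fin m → ℝ)) × F.ζ × ℕ → MvPolynomial (Fin m) ℝ} {c c' κ π₀ π₁ : ℝ}
    (h : Hfw F i₁ A a w q K e X G H c κ π₀) (hc : c' ≤ c) (hπ : π₀ ≤ π₁) :
    Hfw F i₁ A a w q K e X G H c' κ π₁ := by
  intro j hj B hBA hPB
  have hl2 : 0 < Real.log 2 := Real.log_pos one_lt_two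
  refine (h j hj B hBA (hπ.trans hPB)).trans ?_
  refine mul_le_mul_of_nonneg_right ?_ hl2.le
  exact mul_le_mul_of_nonneg_right (by linarith only [hc]) (Nat.cast_nonneg _)

/-- The rows of a good window. -/
theorem row_win {F : Fam m J} {N L B R : ℕ} {c : ℝ} {A : F.Ω → Prop} (hA : 0 < Pe F.p A)
    (hGC : GC F c N L B R A) (hL : 0 < L) (hu : 0 < J / N) (hcm : c ≤ m) {a b : ℕ}
    (ha : R * (J / N) ≤ a) (hab : a ≤ b) (hb : b ≤ (R + B * L) * (J / N)) :
    CH (Pool.Agent.H49.Ent.cond F.p A True) (F.X b) (fun ω => (F.X a ω, F.W ω)) ≤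
      (m - c) * (((b : ℝ) - a) * Real.log 2) +
        2 * m * (((L * (J / N) : ℕ) : ℝ) * Real.log 2) := by
  obtain ⟨hBR, hGC⟩ := hGC
  have hp : IsLaw (Pool.Agent.H49.Ent.cond F.p A True) := isLaw_cond F.isLaw hA
  have hwin := rows_win hp F.x F.W ((R - B * L) * (J / N)) (L * (J / N)) (2 * B) (c := c)
    (d := 0) (Nat.mul_pos hL hu) hcm le_rfl (by
      intro l hl
      have z := hGC l hl
      have hl1 : (l + 1) * L ≤ 2 * B * L := Nat.mul_le_mul_right _ (by omega)
      have e0 : (l + 1) * L = l * L + L := by ring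
      unfold Zr Zm at z
      have e1 : (R + (l + 1) * L - B * L) * (J / N) =
          (R - B * L) * (J / N) + (l + 1) * (L * (J / N)) := by
        have : R + (l + 1) * L - B * L = (R - B * L) + (l + 1) * L := by omega
        rw [this]
        ring
      have e2 : (R + l * L - B * L) * (J / N) = (R - B * L) * (J / N) + l * (L * (J / N)) := by
        have : R + l * L - B * L = (R - B * L) + l * L := by omega
        rw [this]
        ring
      rw [e1, e2] at z
      have e3 : ((((R - B * L) * (J / N) + (l + 1) * (L * (J / N)) : ℕ) : ℝ) -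
          (((R - B * L) * (J / N) + l * (L * (J / N)) : ℕ) : ℝ)) = ((L * (J / N) : ℕ) : ℝ) := by
        push_cast
        ring
      rw [e3] at z
      rw [add_zero]
      exact z)
    (a := a) (b := b)
    (le_trans (Nat.mul_le_mul_right _ (Nat.sub_le _ _)) ha) hab (by
      refine hb.trans (le_of_eq ?_)
      have e1 : (R - B * L) * (J / N) + 2 * B * (L * (J / N)) =
          (R - B * L + 2 * (B * L)) * (J / N) := by ring
      rw [e1]
      congr 1
      omega)
  rw [mul_zero, add_zero] at hwin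
  exact hwin

/-- The position given the line and the window. -/
theorem x_slam (F : Fam m J) {p : F.Ω → ℝ} (hp : IsLaw p) {a : ℕ} (ha : a ≤ J) :
    CH p (F.X a) (slam F a) ≤ m * Real.log 5 := by
  have h := CH_le_vec hp.nonneg hp.sum_one (F.X a) (slam F a) (fun _ => 2) (by
    intro ω ω' _ _ hh i
    have e1 := Prod.ext_iff.1 hh
    have e2 := Prod.ext_iff.1 e1.1
    have e3 := Prod.ext_iff.1 e1.2
    have eT : F.T1 a ω = F.T1 a ω' := e3.2
    have eu : F.u ω = F.u ω' := e2.1
    have ed : F.d ω = F.d ω' := e2.2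
    have h2 := T1_real F ha ω
    have h3 := T1_real F ha ω'
    rw [← eT] at h3
    have h4 : |(2 : ℝ) ^ a * F.t ω - 2 ^ a * F.t ω'| ≤ 1 := by
      rw [abs_le]
      constructor <;> linarith only [h2, h3, h2.1, h2.2, h3.1, h3.2]
    have h5 : |(2 : ℝ) ^ a * F.x ω i - 2 ^ a * F.x ω' i| ≤ 1 := by
      unfold Fam.x
      rw [← eu, ← ed]
      have e5 : (2 : ℝ) ^ a * (F.u ω i + F.t ω * F.d ω i) -
          2 ^ a * (F.u ω i + F.t ω' * F.d ω i) =
          (2 ^ a * F.t ω - 2 ^ a * F.t ω') * F.d ω i := by ring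
      rw [e5, abs_mul]
      calc _ ≤ 1 * 1 := mul_le_mul h4 (F.dir ω i) (abs_nonneg _) (by norm_num)
        _ = 1 := one_mul 1
    have h6 := floor_near h5
    norm_num at h6 ⊢
    exact h6)
  rw [Ex_const hp.sum_one] at h
  norm_num at h
  exact h

/-- The tangential digits are full given the position. -/
theorem mk_pos {F : Fam m J} {i₁ : Fin m} {η : ℝ} {A : F.Ω → Prop} (hM : Mkf F i₁ η A)
    (hA : 0 < Pe F.p A) {E Q : ℕ} (hEQ : E ≤ Q) (hQ : Q ≤ J) :
    ((m : ℝ) - 1) * (((Q : ℝ) - E) * Real.log 2) - (m * (m * Real.log 5) + η * J) ≤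
      CH (Pool.Agent.H49.Ent.cond F.p A True) (tdg i₁ Q F.x) (fun ω => (F.X E ω, F.W ω)) := by
  have hq := isLaw_cond F.isLaw hA
  have hq0 := hq.nonneg
  have hEJ := hEQ.trans hQ
  have h1 := hM.tan hA (fun ω => (F.T1 E ω, (F.Z ω, F.X E ω))) (s := m * Real.log 5) hEQ hQ
    (by
      intro ω ω' _ _ hh
      have e1 : F.X J ω = F.X J ω' := (Prod.ext_iff.1 hh).1
      have e2 : F.W ω = F.W ω' := (Prod.ext_iff.1 hh).2
      have e3 : F.T ω = F.T ω' := (Prod.ext_iff.1 e2).1
      have e4 : F.Z ω = F.Z ω' := (Prod.ext_iff.1 e2).2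
      have e5 : F.T1 E ω = F.T1 E ω' := by
        unfold Fam.T1
        rw [e3]
      have e6 : F.X E ω = F.X E ω' := fl_nest hEJ _ _ e1
      simp only [e4, e5, e6])
    (fun ω ω' _ _ hh => (Prod.ext_iff.1 hh).1)
    (by
      refine le_trans ?_ (x_slam F hq hEJ)
      refine CH_mono_left hq0 ?_
      intro ω ω' _ _ hh
      have e1 : F.X E ω = F.X E ω' := (Prod.ext_iff.1 hh).1
      have e2 : slam F E ω = slam F E ω' := (Prod.ext_iff.1 hh).2
      have e3 := Prod.ext_iff.1 (Prod.ext_iff.1 e2).2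
      exact Prod.ext e3.2 (Prod.ext e3.1 e1))
  refine h1.trans ?_
  refine CH_mono_cond hq0 ?_
  intro ω ω' _ _ hh
  have e0 := Prod.ext_iff.1 hh
  have e1 := Prod.ext_iff.1 (Prod.ext_iff.1 e0.2).2
  exact Prod.ext e1.2 (Prod.ext e0.1 e1.1)

/-- The digits of the shape are bounded if the cells are smaller than the precision. -/
theorem sc_triv (m K : ℕ) (L : ℝ) (hL : 0 ≤ L) : ∃ C : ℝ, 0 ≤ C ∧ ∀ (J : ℕ) (F : Fam m J)
    (i₁ : Fin m) (A : F.Ω → Prop) (a e X : ℕ) (G : F.Ω → MvPolynomial (Fin m) ℝ) (Γ : Type)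
    (b : F.Ω → Γ), IsLaw (Pool.Agent.H49.Ent.cond F.p A True) → e + X ≤ a →
    (∀ ω, A ω → (G ω).totalDegree ≤ K) →
    (∀ ω, A ω → ∀ b : Fin m → ℝ, (∀ j, |b j - bp F i₁ ω j| ≤ 2 / 2 ^ a) →
      ∀ j, |eval b (pderiv j (G ω))| ≤ L) →
    CH (Pool.Agent.H49.Ent.cond F.p A True) (Sc F i₁ a e K G X) b ≤ C := by
  obtain ⟨C₁, hC₁, hcube⟩ := SLP.coef_cube m K
  have hml : 0 ≤ (m : ℝ) * L := mul_nonneg (Nat.cast_nonneg _) hL
  have h0l : 0 ≤ C₁ * (m * L) := mul_nonneg (by linarith only [hC₁]) hml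
  refine ⟨(mons m K).card * Real.log (2 * (2 * (C₁ * (m * L)) + 1) + 1), ?_, ?_⟩
  · have : 0 ≤ Real.log (2 * (2 * (C₁ * (m * L)) + 1) + 1) := Real.log_nonneg (by linarith only [h0l])
    positivity
  intro J F i₁ A a e X G Γ b hp hea hG hgr
  have hA0 : (0 : ℝ) < 2 ^ a := by positivity
  -- the coefficients
  have hco : ∀ ω, A ω → ∀ al : Fin m →₀ ℕ, al ≠ 0 →
      |coeff al (cpl F i₁ a G ω)| ≤ C₁ * (m * L) / 2 ^ a := by
    intro ω hω al hal
    have hd : (cpl F i₁ a G ω).totalDegree ≤ K := (totalDegree_cpl_le F i₁ a G ω).trans (hG ω hω)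
    have h1 := hcube (cpl F i₁ a G ω - C (eval 0 (cpl F i₁ a G ω))) (m * L * (1 / 2 ^ a)) 0
      ((totalDegree_sub _ _).trans (max_le hd (by rw [totalDegree_C]; exact Nat.zero_le _)))
      (fun i => by simp) (by
        intro y hy
        rw [map_sub, eval_C, eval_cpl, eval_cpl]
        have hz1 : ∀ i, |(tco i₁ a F.x ω i + 1 / 2 ^ a * y i) - tco i₁ a F.x ω i| ≤
            1 / 2 ^ a := by
          intro i
          have h2 := hy i
          simp only [Pi.zero_apply, zero_add] at h2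
          have e1 : (tco i₁ a F.x ω i + 1 / 2 ^ a * y i) - tco i₁ a F.x ω i =
              1 / 2 ^ a * y i := by ring
          rw [e1, abs_mul, abs_of_pos (by positivity : (0 : ℝ) < 1 / 2 ^ a),
            abs_of_nonneg h2.1]
          exact mul_le_of_le_one_right (by positivity) h2.2
        refine gfn_lip F i₁ hL G ω (hgr ω hω) _ _ hz1 (fun i => ?_) (1 / 2 ^ a) (fun i => ?_)
        · simp only [Pi.zero_apply, mul_zero, add_zero, sub_self, abs_zero]
          positivity
        · simp only [Pi.zero_apply, mul_zero, add_zero]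
          exact hz1 i)
    have h2 := (Pool.KAL.abs_coeff_le (cpl F i₁ a G ω - C (eval 0 (cpl F i₁ a G ω))) al).trans h1
    rw [coeff_sub, coeff_C, if_neg (Ne.symm hal), sub_zero] at h2
    refine h2.trans (le_of_eq ?_)
    ring
  exact by
   refine ch_mons hp (mons m K) (fun ω => Sc F i₁ a e K G X ω) _ _ _ ?_ ?_
   · intro ω ω' hω hω' _ al hal
     by_cases h0 : al = 0
     · unfold Sc
       rw [if_neg (fun h => h.2 h0), if_neg (fun h => h.2 h0)]
       simp only [sub_self, Int.cast_zero, abs_zero]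
       linarith only [h0l]
     · unfold Sc
       rw [if_pos ⟨hal, h0⟩, if_pos ⟨hal, h0⟩]
       unfold SLO.hz
       have h1 := hco ω (of_cond_pos hω) al h0
       have h2 := hco ω' (of_cond_pos hω') al h0
       refine Pool.OCT.floor_diff (L := 2 * (C₁ * (m * L))) ?_
       have hpp : (0 : ℝ) < 2 ^ (e + X) := by positivity
       rw [← mul_sub, abs_mul, abs_of_pos hpp]
       have h3 : |coeff al (cpl F i₁ a G ω) - coeff al (cpl F i₁ a G ω')| ≤
           2 * (C₁ * (m * L)) / 2 ^ a := by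
         have e1 : 2 * (C₁ * (m * L)) / 2 ^ a = C₁ * (m * L) / 2 ^ a + C₁ * (m * L) / 2 ^ a := by
           ring
         rw [e1]
         rw [abs_le] at h1 h2 ⊢
         constructor <;> linarith only [h1, h2, h1.1, h1.2, h2.1, h2.2]
       refine (mul_le_mul_of_nonneg_left h3 hpp.le).trans ?_
       rw [mul_div_assoc', div_le_iff₀ hA0, mul_comm ((2 : ℝ) ^ (e + X))]
       refine mul_le_mul_of_nonneg_left ?_ (by linarith only [h0l])
       exact pow_le_pow_right₀ (by norm_num) hea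
   · intro ω ω' _ _ _ hh
     funext al
     by_cases hal : al ∈ mons m K
     · exact hh al hal
     · unfold Sc
       rw [if_neg (fun h => hal h.1), if_neg (fun h => hal h.1)]

end aux

variable {k : ℕ}

/-- **(H5W)** -/
theorem h5w_of {S : FCl (k + 1)} (hS : SPS S (k + 1 - 2)) (hFR : Pool.SLF.FRF S)
    (hHF : ∀ (m K : ℕ) (L C0 c κ : ℝ), 0 ≤ L → 0 ≤ C0 → 0 < c → 0 < κ → HF2 m K L C0 c κ) :
    H5W S := by
  classical
  intro c h₁ X K κ p₀ ε C0 hc hc1 hh hX hK hκ hκ1 hp₀ hε hC0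
  have hl2 : 0 < Real.log 2 := Real.log_pos one_lt_two
  obtain ⟨Lg, hLg⟩ : ∃ Lg : ℝ, Lg = 2 * ((k + 1 : ℕ) : ℝ) + 1 := ⟨_, rfl⟩
  have hLg0 : 0 ≤ Lg := by rw [hLg]; positivity
  obtain ⟨δ₁, X₁, hδ₁, hb1⟩ := hfw_of_bas (k + 1) K Lg C0 (3 * c / 4) κ hLg0 hC0
    (by positivity) hκ
  obtain ⟨δ₂, X₂, hδ₂, hb2⟩ := hHF (k + 1) K Lg C0 (3 * c / 4) κ hLg0 hC0 (by positivity) hκ
  obtain ⟨Cs, hCs0, hCs⟩ := sc_triv (k + 1) K Lg hLg0
  obtain ⟨Bm, hBm0, hBm⟩ := mk_bxs (k + 1) K
  obtain ⟨π₀, hπd⟩ : ∃ π₀, π₀ = min p₀ 1 := ⟨_, rfl⟩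
  have hπ : 0 < π₀ := by rw [hπd]; exact lt_min hp₀ one_pos
  have hπ1 : π₀ ≤ 1 := by rw [hπd]; exact min_le_right _ _
  have hπp : π₀ ≤ p₀ := by rw [hπd]; exact min_le_left _ _
  obtain ⟨ε₁, hε₁⟩ : ∃ ε₁, ε₁ = min ε δ₁ := ⟨_, rfl⟩
  have hε₁0 : 0 < ε₁ := by rw [hε₁]; exact lt_min hε hδ₁
  have hε₁ε : ε₁ ≤ ε := by rw [hε₁]; exact min_le_left _ _
  have hε₁δ : ε₁ ≤ δ₁ := by rw [hε₁]; exact min_le_right _ _
  obtain ⟨δ, hδd⟩ : ∃ δ, δ = min δ₁ δ₂ := ⟨_, rfl⟩
  have hδ : 0 < δ := by rw [hδd]; exact lt_min hδ₁ hδ₂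
  have hδ1 : δ ≤ δ₁ := by rw [hδd]; exact min_le_left _ _
  have hδ2 : δ ≤ δ₂ := by rw [hδd]; exact min_le_right _ _
  obtain ⟨BF, hBF, hF⟩ := hFR (7 * c / 8) h₁ X K ε₁ (by positivity) (by linarith only [hc1]) hh hX hK hε₁0
  refine ⟨BF + ⌈32 * ((k + 1 : ℕ) : ℝ) / (c * κ)⌉₊, by omega, fun B₁ hB₁ => ?_⟩
  obtain ⟨BG, hF⟩ := hF B₁ (by omega)
  refine ⟨BG + B₁, fun B hB => ?_⟩
  obtain ⟨LF, hF⟩ := hF B (by omega)
  refine ⟨LF + ⌈2 / X⌉₊ + 1, fun L hL N Y hY1 hY2 i₁ ρ R q a hreg haρ hRρ hρ => ?_⟩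
  have hL0 : 0 < L := by omega
  have hB₂Y : BF * L ≤ Y := le_trans (Nat.mul_le_mul_right _ (by omega)) hY1
  exact by
   have hYB : Y ≤ B * L := hY2.trans (Nat.mul_le_mul_right _ (by omega))
   have hY0 : 1 ≤ Y := by
     have : 1 * 1 ≤ BF * L := Nat.mul_le_mul hBF hL0
     omega
   have hρN : ρ ≤ N := by
     have h1 : (0 : ℝ) ≤ X * N := by positivity
     have : (ρ : ℝ) ≤ N := by linarith only [hρ, h1]
     exact_mod_cast this
   have hLN : L ≤ N := by
     have h1 : 1 * L ≤ B * L := Nat.mul_le_mul_right _ (by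
       rcases Nat.eq_zero_or_pos B with h0 | h0
       · rw [h0] at hYB
         omega
       · exact h0)
     omega
   have hN0 : 0 < N := by omega
   have hNr : (0 : ℝ) < N := by exact_mod_cast hN0
   have hρ2 : ρ + 2 ≤ N := by
     have h1 : 2 / X ≤ (⌈2 / X⌉₊ : ℝ) := Nat.le_ceil _
     have h2 : ((⌈2 / X⌉₊ : ℕ) : ℝ) ≤ N := by exact_mod_cast (by omega : ⌈2 / X⌉₊ ≤ N)
     have h3 : 2 / X ≤ N := h1.trans h2
     rw [div_le_iff₀ hX] at h3
     have h4 : (ρ : ℝ) + 2 ≤ N := by linarith only [hρ, h3]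
     exact_mod_cast h4
   have hYr : (1 : ℝ) ≤ Y := by exact_mod_cast hY0
   obtain ⟨η, hη⟩ : ∃ η : ℝ, η = δ * Y / (4 * N) := ⟨_, rfl⟩
   have hη0 : 0 < η := by rw [hη]; positivity
   -- the claims
   have hpos : Clg S (fun _ F A => 0 < Pe F.p A) :=
     Clg.of one_pos 0 fun J _ F A hA => lt_of_lt_of_le (Real.exp_pos _) hA.2
   exact by
    have c1 := Pool.SLF.clg_pi (mkf_clg hS hh hη0) hπ
    have hck : c ≤ ((k + 1 : ℕ) : ℝ) := by
      push_cast
      have : (0 : ℝ) ≤ k := Nat.cast_nonneg k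
      linarith only [hc1]
    have c2 := Pool.SLF.zr_sub S (c := c) (c' := 7 * c / 8) (by positivity) (by linarith only [hc]) hck N
    have c3 : Clg S (fun J F A => a + 2 ≤ R → ∀ A₁ : F.Ω → Prop, Sub A₁ A →
        π₀ * Pe F.p A ≤ Pe F.p A₁ → Ch F i₁ ⌊h₁ * J⌋₊ A₁ → Pls F (7 * c / 8) N ρ A₁ →
        GC F (7 * c / 8) N L B R A₁ → ∀ (p : ℕ → ℕ → ℕ) (d : Dts F), d.OK i₁ N ρ K p A₁ →
        Gap p R (B * L) a → CH (Qa F A₁) (Pool.SLF.shs F i₁ N ρ K d R a (Y * (J / N)))
          (Pool.SLF.bxs F i₁ N ρ K d R a 0) ≤ ε₁ * ((Y * (J / N) : ℕ) : ℝ)) :=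
      Clg.cnd fun hreg1 => Pool.SLF.clg_pi (hF L (by omega) N Y hB₂Y hY2 i₁ ρ R a (by omega) haρ
        hRρ hρ) hπ
    -- the size of the unit
    obtain ⟨U₁, hU₁⟩ := exists_nat_gt (2 / κ)
    obtain ⟨U₂, hU₂⟩ := exists_nat_gt (2 * Bm / δ)
    obtain ⟨U₃, hU₃⟩ := exists_nat_gt (2 * (((k + 1 : ℕ) : ℝ) * (((k + 1 : ℕ) : ℝ) *
      Real.log 5)) / δ)
    obtain ⟨U₄, hU₄⟩ := exists_nat_gt (Cs / ε)
    refine Clg.mono (J₂ := N * (X₁ + X₂ + U₁ + U₂ + U₃ + U₄ + 1)) (hpos.and (c1.and (c2.and c3))) ?_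
    rintro J hJ F A ⟨hA, d1, d2, d3⟩ hCh hPls hGC p d hd hgap
    obtain ⟨u, hu⟩ : ∃ u, u = J / N := ⟨_, rfl⟩
    have huU : X₁ + X₂ + U₁ + U₂ + U₃ + U₄ + 1 ≤ u := by
      rw [hu, Nat.le_div_iff_mul_le hN0, Nat.mul_comm]
      exact hJ
    have hNJ : N ≤ J := le_trans (Nat.le_mul_of_pos_right N (by omega)) hJ
    have hJu : (J : ℝ) ≤ 2 * N * (u : ℝ) := by
      rw [hu]
      have h1 := Nat.lt_div_mul_add (a := J) hN0
      have h2 : J / N * N + N ≤ 2 * N * (J / N) := by
        have h3 : 1 ≤ J / N := by rw [← hu]; omega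
        nlinarith only [hu, huU]
      have h4 : J ≤ 2 * N * (J / N) := by omega
      exact_mod_cast h4
    exact by
     have hu1 : 1 ≤ J / N := by rw [← hu]; omega
     have hNu : N * u ≤ J := by rw [hu]; exact Nat.mul_div_le J N
     have hur : (1 : ℝ) ≤ u := by exact_mod_cast (by omega : 1 ≤ u)
     have hpA : IsLaw (Pool.Agent.H49.Ent.cond F.p A True) := isLaw_cond F.isLaw hA
     -- the precisions
     have hgp : R + B * L ≤ p a a := Pool.SLF.ok_gap hd haρ hgap
     have hXYe : R * (J / N) + Y * (J / N) ≤ p a a * (J / N) := by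
       rw [← Nat.add_mul]
       exact Nat.mul_le_mul_right _ (by omega)
     have hXYJ : R * (J / N) + Y * (J / N) ≤ J := by
       rw [← Nat.add_mul, ← hu]
       exact le_trans (Nat.mul_le_mul_right _ (by omega)) hNu
     have haJ : (a + 2) * (J / N) ≤ J := by
       rw [← hu]
       exact le_trans (Nat.mul_le_mul_right _ (by omega)) hNu
     -- the number of digits
     obtain ⟨Xb, hXb⟩ : ∃ Xb, Xb = Y * (J / N) := ⟨_, rfl⟩
     obtain ⟨h, hhd⟩ : ∃ h : ℕ, h = ⌊κ * (Xb : ℝ)⌋₊ := ⟨_, rfl⟩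
     have hXbu : (Xb : ℝ) = Y * u := by rw [hXb, hu]; push_cast; ring
     have huX : (u : ℝ) ≤ Xb := by
       rw [hXbu]
       nlinarith only [hYr]
     have hXbr : (0 : ℝ) < Xb := by linarith only [hur, huX]
     have hκX : 2 ≤ κ * Xb := by
       have h1 : ((U₁ : ℕ) : ℝ) ≤ u := by exact_mod_cast (by omega : U₁ ≤ u)
       have h2 : 2 / κ ≤ Xb := by linarith only [hU₁, huX, h1]
       rw [div_le_iff₀ hκ] at h2
       linarith only [h2]
     have hhκ : κ * Xb / 2 ≤ h := by
       have := Nat.lt_floor_add_one (κ * (Xb : ℝ))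
       rw [← hhd] at this
       linarith only [hκX, this]
     exact by
      have hh0 : (0 : ℝ) ≤ h := Nat.cast_nonneg _
      -- parts
      have hpart : ∀ A₁ : F.Ω → Prop, (∀ ω, A₁ ω → A ω) → 0 < Pe F.p A₁ →
          GC F (7 * c / 8) N L B R A₁ := by
        intro A₁ hs hA₁
        obtain ⟨g1, g2⟩ := hGC
        refine ⟨g1, fun j hj => d2 _ _ ?_ ?_ (g2 j hj) A₁ hs hA₁⟩
        · have e0 : (j + 1) * L = j * L + L := by ring
          omega
        · have hl1 : (j + 1) * L ≤ 2 * B * L := Nat.mul_le_mul_right _ (by omega)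
          have e0 : 2 * B * L = B * L + B * L := by ring
          omega
      have hplsp : ∀ A₁ : F.Ω → Prop, (∀ ω, A₁ ω → A ω) → 0 < Pe F.p A₁ →
          Pls F (7 * c / 8) N ρ A₁ := fun A₁ hs hA₁ p' h1 h2 =>
        d2 _ _ h1 h2 (hPls p' h1 h2) A₁ hs hA₁
      have hPeB : ∀ A₁ : F.Ω → Prop, (∀ ω, A₁ ω → A ω) →
          π₀ ≤ Pr (Pool.Agent.H49.Ent.cond F.p A True) {ω | A₁ ω} →
          π₀ * Pe F.p A ≤ Pe F.p A₁ ∧ 0 < Pe F.p A₁ := by
        intro A₁ hs hP
        have h1 := pe_of_pr hA hs hP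
        exact ⟨h1, lt_of_lt_of_le (mul_pos hπ hA) h1⟩
      -- the rows
      have hrow : ∀ j : ℕ, (j + 1) * h ≤ Xb → ∀ A₁ : F.Ω → Prop, (∀ ω, A₁ ω → A ω) →
          0 < Pe F.p A₁ → CH (Pool.Agent.H49.Ent.cond F.p A₁ True) (F.X (R * (J / N) + j * h + h))
            (fun ω => (F.X (R * (J / N) + j * h) ω, F.W ω)) ≤
            (((k + 1 : ℕ) : ℝ) - 3 * c / 4) * (h * Real.log 2) := by
        intro j hj A₁ hs hA₁
        have hjh : j * h + h ≤ Xb := by
          have : (j + 1) * h = j * h + h := by ring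
          omega
        have h1 := row_win hA₁ (hpart A₁ hs hA₁) hL0 (by omega) (by linarith only [hc, hck])
          (a := R * (J / N) + j * h) (b := R * (J / N) + j * h + h) (Nat.le_add_right _ _)
          (Nat.le_add_right _ _) (by
            have e1 : (R + B * L) * (J / N) = R * (J / N) + B * L * (J / N) := by ring
            have e2 : Xb ≤ B * L * (J / N) := by
              rw [hXb]
              exact Nat.mul_le_mul_right _ hYB
            omega)
        refine h1.trans ?_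
        have e1 : (((R * (J / N) + j * h + h : ℕ) : ℝ) - ((R * (J / N) + j * h : ℕ) : ℝ)) = h := by
          push_cast
          ring
        rw [e1]
        have e2 : 2 * ((k + 1 : ℕ) : ℝ) * (((L * (J / N) : ℕ) : ℝ) * Real.log 2) ≤
            c / 8 * (h * Real.log 2) := by
          have g1 : 32 * ((k + 1 : ℕ) : ℝ) / (c * κ) ≤
              ((BF + ⌈32 * ((k + 1 : ℕ) : ℝ) / (c * κ)⌉₊ : ℕ) : ℝ) := by
            push_cast
            have := Nat.le_ceil (32 * ((k + 1 : ℕ) : ℝ) / (c * κ))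
            have h0 : (0 : ℝ) ≤ BF := Nat.cast_nonneg _
            push_cast at this
            linarith only [this]
          obtain ⟨B₂, hB₂⟩ : ∃ B₂ : ℕ, B₂ = BF + ⌈32 * ((k + 1 : ℕ) : ℝ) / (c * κ)⌉₊ := ⟨_, rfl⟩
          rw [← hB₂] at g1 hY1
          rw [div_le_iff₀ (by positivity)] at g1
          have g2 : (B₂ : ℝ) * L ≤ Y := by exact_mod_cast hY1
          have g3 : (B₂ : ℝ) * L * u ≤ Xb := by
            rw [hXbu]
            exact mul_le_mul_of_nonneg_right g2 (by linarith only [hur])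
          have g4 : 2 * ((k + 1 : ℕ) : ℝ) * ((L * (J / N) : ℕ) : ℝ) ≤ c / 8 * h := by
            rw [← hu]
            push_cast
            have g5 : 32 * ((k : ℝ) + 1) * (L * u) ≤ B₂ * (c * κ) * (L * u) := by
              push_cast at g1
              exact mul_le_mul_of_nonneg_right g1 (by positivity)
            have g6 : B₂ * (c * κ) * (L * u) ≤ c * κ * Xb := by
              have := mul_le_mul_of_nonneg_left g3 (by positivity : 0 ≤ c * κ)
              linarith only [this]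
            have g7 : c * (κ * Xb / 2) ≤ c * h := mul_le_mul_of_nonneg_left hhκ hc.le
            linarith only [g5, g6, g7]
          have := mul_le_mul_of_nonneg_right g4 hl2.le
          linarith only [this]
        have e3 : (((k + 1 : ℕ) : ℝ) - 3 * c / 4) * (h * Real.log 2) =
            (((k + 1 : ℕ) : ℝ) - 7 * c / 8) * (h * Real.log 2) + c / 8 * (h * Real.log 2) := by ring
        rw [e3]
        linarith only [e2]
      exact by
       have hηJ : η * J ≤ δ * Xb / 2 := by
         calc η * J ≤ η * (2 * N * u) := mul_le_mul_of_nonneg_left hJu hη0.le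
           _ = δ * Xb / 2 := by
               rw [hη, hXbu]
               field_simp
               ring
       have hmk : ∀ A₁ : F.Ω → Prop, (∀ ω, A₁ ω → A ω) → π₀ * Pe F.p A ≤ Pe F.p A₁ →
           Mkf F i₁ η A₁ := fun A₁ hs hP => d1 A₁ hs hP i₁ (Ch.hered F i₁ _ A A₁ hs hCh)
       have hgr : ∀ ω, A ω → ∀ b : Fin (k + 1) → ℝ,
           (∀ j, |b j - bp F i₁ ω j| ≤ 2 / 2 ^ ((a + 2) * (J / N))) →
           ∀ j, |eval b (pderiv j (own F N ρ d a ω))| ≤ Lg := fun ω hω b hb j => by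
         rw [hLg]
         exact Pool.SLF.ok_grad hd hu1 haρ ω hω b hb j
       rcases le_or_gt (a + 2) R with hr | hr
       · -- the cells are larger than the precision
         have hfr : ∀ A₁ : F.Ω → Prop, (∀ ω, A₁ ω → A ω) → π₀ * Pe F.p A ≤ Pe F.p A₁ →
             0 < Pe F.p A₁ → CH (Qa F A₁) (Sc F i₁ ((a + 2) * (J / N)) (R * (J / N)) K
               (own F N ρ d a) (Y * (J / N)))
             (bxs F i₁ ((a + 2) * (J / N)) (R * (J / N)) K (own F N ρ d a) 0) ≤
             ε₁ * ((Y * (J / N) : ℕ) : ℝ) := fun A₁ hs hP hA₁ =>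
           d3 hr A₁ hs hP (Ch.hered F i₁ _ A A₁ hs hCh) (hplsp A₁ hs hA₁) (hpart A₁ hs hA₁) p d
             (hd.sub hs) hgap
         refine ⟨?_, ?_⟩
         · refine (hfr A (fun ω h => h) ?_ hA).trans ?_
           · exact mul_le_of_le_one_left hA.le hπ1
           · exact mul_le_mul_of_nonneg_right hε₁ε (Nat.cast_nonneg _)
         · intro w H hw hq hH hnear
           have hBas : Bas F i₁ A ((a + 2) * (J / N)) K (R * (J / N)) (Y * (J / N))
               (own F N ρ d a) Lg (3 * c / 4) κ π₀ δ₁ :=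
             { law := hpA
               hae := Nat.mul_le_mul_right _ hr
               hJ := hXYJ
               hG := fun ω _ => hd.dG a _
               hgr := hgr
               hx := fun ω hω => Pool.SLF.ok_on hd haρ hXYe ω hω
               row := by
                 intro j hj A₁ hs hP
                 rw [← hXb, ← hhd] at hj ⊢
                 exact hrow j hj A₁ hs (hPeB A₁ hs hP).2
               mkf := by
                 intro j hj A₁ hs hP
                 rw [← hXb, ← hhd] at hj ⊢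
                 have hA₁ := hPeB A₁ hs hP
                 have hjh : j * h + h ≤ Xb := by
                   have : (j + 1) * h = j * h + h := by ring
                   omega
                 obtain ⟨H', hH', hcl⟩ := Pool.SLF.ok_ball (hd.sub hs) haρ haJ
                 have h1 := hBm J F i₁ η A₁ (hmk A₁ hs hA₁.1) hA₁.2 (ρ * (J / N))
                   ((a + 2) * (J / N)) (R * (J / N)) (j * h + h) (p a a * (J / N))
                   (R * (J / N) + j * h + h) (d.G a) H'
                   (by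
                     rw [← hu]
                     exact le_trans (Nat.mul_le_mul_right _ hρN) hNu)
                   (by
                     have := Nat.mul_le_mul_right (J / N) hr
                     omega)
                   (by omega) (by omega) (hd.dG a) hH' hcl
                 have h2 : Bm + η * J ≤ δ₁ * Xb := by
                   have g1 : ((U₂ : ℕ) : ℝ) ≤ u := by exact_mod_cast (by omega : U₂ ≤ u)
                   have g2 : 2 * Bm / δ ≤ Xb := by linarith only [hU₂, huX, g1]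
                   rw [div_le_iff₀ hδ] at g2
                   have g3 : δ * Xb ≤ δ₁ * Xb := mul_le_mul_of_nonneg_right hδ1 hXbr.le
                   linarith only [hηJ, g2, g3]
                 refine le_trans ?_ h1
                 linarith only [h2]
               fr := by
                 intro A₁ hs hP
                 have hA₁ := hPeB A₁ hs hP
                 refine (hfr A₁ hs hA₁.1 hA₁.2).trans ?_
                 exact mul_le_mul_of_nonneg_right hε₁δ (Nat.cast_nonneg _) }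
           have h1 := hb1 J F i₁ A ((a + 2) * (J / N)) w (q * (J / N)) (R * (J / N)) (Y * (J / N))
             (own F N ρ d a) H π₀ (by
               rw [← hu]
               calc X₁ ≤ u := by omega
                 _ = 1 * u := (Nat.one_mul u).symm
                 _ ≤ Y * u := Nat.mul_le_mul_right _ hY0) hπ hBas hw hq hH hnear
           exact h1.mono (by linarith only [hc]) hπp
       · -- the cells are smaller than the precision
         have hr2 : R + Y ≤ a + 2 := by
           rcases hreg with h0 | h0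
           · omega
           · exact h0
         have hea : R * (J / N) + Y * (J / N) ≤ (a + 2) * (J / N) := by
           rw [← Nat.add_mul]
           exact Nat.mul_le_mul_right _ hr2
         refine ⟨?_, ?_⟩
         · refine (hCs J F i₁ A ((a + 2) * (J / N)) (R * (J / N)) (Y * (J / N)) (own F N ρ d a) _ _
             hpA hea (fun ω _ => hd.dG a _) hgr).trans ?_
           rw [← hXb]
           have g1 : ((U₄ : ℕ) : ℝ) ≤ u := by exact_mod_cast (by omega : U₄ ≤ u)
           have g2 : Cs / ε ≤ Xb := by linarith only [hU₄, huX, g1]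
           rw [div_le_iff₀ hε] at g2
           linarith only [g2]
         · intro w H hw hq hH hnear
           have h1 := hb2 J F i₁ A ((a + 2) * (J / N)) w (q * (J / N)) (R * (J / N)) (Y * (J / N))
             (own F N ρ d a) H π₀ (by
               rw [← hu]
               calc X₂ ≤ u := by omega
                 _ = 1 * u := (Nat.one_mul u).symm
                 _ ≤ Y * u := Nat.mul_le_mul_right _ hY0) hπ hpA hea haJ (fun ω _ => hd.dG a _) hgr
             (fun ω hω => Pool.SLF.ok_on hd haρ hXYe ω hω)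
             (by
               intro j hj A₁ hs hP
               rw [← hXb, ← hhd] at hj ⊢
               exact hrow j hj A₁ hs (hPeB A₁ hs hP).2)
             (by
               intro j hj A₁ hs hP
               rw [← hXb, ← hhd] at hj ⊢
               have hA₁ := hPeB A₁ hs hP
               have hjh : j * h + h ≤ Xb := by
                 have : (j + 1) * h = j * h + h := by ring
                 omega
               have h1 := mk_pos (hmk A₁ hs hA₁.1) hA₁.2 (E := R * (J / N) + j * h)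
                 (Q := R * (J / N) + j * h + h) (Nat.le_add_right _ _) (by omega)
               refine le_trans ?_ h1
               have e1 : (((R * (J / N) + j * h + h : ℕ) : ℝ) - ((R * (J / N) + j * h : ℕ) : ℝ)) =
                   h := by
                 push_cast
                 ring
               rw [e1]
               have h2 : ((k + 1 : ℕ) : ℝ) * (((k + 1 : ℕ) : ℝ) * Real.log 5) + η * J ≤ δ₂ * Xb := by
                 have g1 : ((U₃ : ℕ) : ℝ) ≤ u := by exact_mod_cast (by omega : U₃ ≤ u)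
                 have g2 : 2 * (((k + 1 : ℕ) : ℝ) * (((k + 1 : ℕ) : ℝ) * Real.log 5)) / δ ≤ Xb := by
                   linarith only [hU₃, huX, g1]
                 rw [div_le_iff₀ hδ] at g2
                 have g3 : δ * Xb ≤ δ₂ * Xb := mul_le_mul_of_nonneg_right hδ2 hXbr.le
                 linarith only [hηJ, g2, g3]
               linarith only [h2])
             hw hq hH hnear
           exact h1.mono (by linarith only [hc]) hπp

/-- **(H5W)** The rows of the heights are not full in all windows, for all labels. -/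
theorem h5w_thm {S : FCl (k + 1)} (hS : SPS S (k + 1 - 2)) (hFR : Pool.SLF.FRF S) : H5W S :=
  h5w_of hS hFR fun m K _ _ _ _ h1 h2 h3 h4 => hf2_thm m K h1 h2 h3 h4

end Pool.PTH
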